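import Pool.Agent.N249.Tw.Src

set_option autoImplicit false
set_option maxHeartbeats 1000000

/-!
# MP_5168f5: Kakeya maximal estimates for towers of families of lines with arbitrary stages

Work in `ℝ^n = ℝ^d × ℝ`, `n = d + 1`, with its Euclidean norm (`Space d`).  For `v ∈ ℝ^d`, `|v| ≤ 1`,
let `dir v = (v, 1)/|(v, 1)|`; a family of lines, one in each direction `dir v`, `v ∈ B`, is given by a
measurable map `b : ℝ^d → ℝ^d`: the line number `v` is `{(b v + s v, s) : s ∈ ℝ}`, and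
`lineMax δ b f v` is the supremum of the averages of `|f|` over the `δ`-tubes of length one with axis
on this line.  By measurable selection the Kakeya maximal conjecture is the estimate
`‖lineMax‖_q ≤ C_ε δ^(1 - n/p - ε) ‖f‖_p`, `p ≤ n`, `q ≤ (n-1)p'`, for *all* families `b`.

A *tower* is built from *stages* by countable decompositions of `B` (with summable multiplicities)
and by *skew products*: the directions are split, `ℝ^d = ℝ^{d1} × ℝ^{d2}` (any orthogonal splitting),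
the first component of `b(v1, v2)` is `b1(v1)` for a tower `b1`, the second one is `b2(v1)(v2)`, where
`b2(v1)` is a tower for each `v1`; its dependence on `v1` is arbitrary (measurable).

Put `q = l p`, `l ≥ 1`.  A stage of dimension `d` has the exponent `p = 1 + d/l` (the conjectured one)
if it is planar, or has finite overlap, or is section-monotone, or smooth; an ARBITRARY family of
lines of dimension `d` (a stage of the new kind) has the exponent `p = 1 + d/max(l, s)`, where `s` is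
any slope such that all `c > s` are admissible: `s = 2d/(d+1)` (the Wolff range) for `d ≥ 2`, and
`s = 1.67513...` (the root of `x³ - 4x + 2`), or a little less, for `d ≥ 9`.  Any family that
satisfies the estimate with an exponent `p` is also allowed as a stage.  In a skew product the numbers
`p - 1` add up.  For all towers the maximal estimate holds with the exponent so obtained.
-/

open MeasureTheory Set ENNReal NNReal Metric

namespace Pool.Agent.N249.Shelf.ArbitraryStageTowers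

/-- Euclidean space `ℝ^d`. -/
abbrev Vec (d : ℕ) : Type := EuclideanSpace ℝ (Fin d)

/-- Euclidean space `ℝ^{d+1}`, written as `ℝ^d × ℝ` with the Euclidean norm. -/
abbrev Space (d : ℕ) : Type := WithLp 2 (Vec d × ℝ)

/-- The closed tube of length `1` and radius `δ` with centre `a` and axis direction `e`. -/
def tube {d : ℕ} (δ : ℝ) (e a : Space d) : Set (Space d) :=
  {y | |inner ℝ (y - a) e| ≤ 1 / 2 ∧ ‖(y - a) - (inner ℝ (y - a) e : ℝ) • e‖ ≤ δ}

/-- The unit vector `(v, 1)/√(1+|v|²)`. -/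
noncomputable def dir {d : ℕ} (v : Vec d) : Space d :=
  (√(1 + ‖v‖ ^ 2))⁻¹ • WithLp.toLp 2 (v, (1:ℝ))

/-- The point of height `s` on the line `{(b v + s v, s)}`. -/
noncomputable def linePt {d : ℕ} (b : Vec d → Vec d) (v : Vec d) (s : ℝ) : Space d :=
  WithLp.toLp 2 (b v + s • v, s)

/-- Supremum of the averages of `|f|` over the `δ`-tubes with axis on the line number `v`. -/
noncomputable def lineMax {d : ℕ} (δ : ℝ) (b : Vec d → Vec d) (f : Space d → ℝ) (v : Vec d) : ℝ≥0∞ :=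
  ⨆ s : ℝ, (volume (tube δ (dir v) (linePt b v s)))⁻¹ *
    ∫⁻ y in tube δ (dir v) (linePt b v s), ‖f y‖ₑ

/-- The maximal estimate `L^p → L^(l p)` for the lines `{(b v + t v, t)}`, `v ∈ B`, for the tubes of
all widths `δ < 1`, with the conjectured power `δ^(1 - n/p)`, up to the loss `δ^(-ε)` and the
constants `C ε`; all is raised to the power `l p`. -/
def Maximal {d : ℕ} (l p : ℝ) (C : ℝ → ℝ≥0∞) (B : Set (Vec d)) (b : Vec d → Vec d) : Prop :=
  ∀ ε : ℝ, 0 < ε → ∀ δ : ℝ, 0 < δ → δ < 1 → ∀ f : Space d → ℝ, AEMeasurable f volume →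
    ∫⁻ v in B, lineMax δ b f v ^ (l * p)
      ≤ C ε * ENNReal.ofReal (δ ^ (-(l * ((d : ℝ) + 1 - p) + ε))) * (∫⁻ y, ‖f y‖ₑ ^ p) ^ l

/-- Up to a null set, `B` is covered by countably many measurable sets on which `b` is Lipschitz. -/
def LipPieces {d : ℕ} (B : Set (Vec d)) (b : Vec d → Vec d) : Prop :=
  ∃ P : ℕ → Set (Vec d), (∀ k, MeasurableSet (P k)) ∧ volume (B \ ⋃ k, P k) = 0 ∧
    ∀ k, ∃ C : ℝ≥0, LipschitzOnWith C b (P k)

/-- For almost every height `t`, almost every point of height `t` lies on at most `M` of the lines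
with direction in `B`. -/
def OverlapLE {d : ℕ} (M : ℕ) (B : Set (Vec d)) (b : Vec d → Vec d) : Prop :=
  ∀ᵐ t : ℝ, ∀ᵐ y : Vec d, {v | v ∈ B ∧ b v + t • v = y}.encard ≤ M

/-- For almost every height `t` the section map `v ↦ b v + t v` becomes monotone on `B` after
composition with an invertible linear map `K` (which may depend on `t`). -/
def SectionMonotone {d : ℕ} (B : Set (Vec d)) (b : Vec d → Vec d) : Prop :=
  ∀ᵐ t : ℝ, ∃ K : Vec d →L[ℝ] Vec d, K.det ≠ 0 ∧
    ∀ v ∈ B, ∀ w ∈ B, 0 ≤ inner ℝ (K ((b v + t • v) - (b w + t • w))) (v - w)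

/-- The polynomial map `ℝ^d → ℝ^d` with components `P i`. -/
noncomputable def polyMap {d : ℕ} (P : Fin d → MvPolynomial (Fin d) ℝ) (v : Vec d) : Vec d :=
  WithLp.toLp 2 (fun i => MvPolynomial.eval (fun j => v j) (P i))

/-- `b` is of class `C^k` on `B` in the sense of Taylor approximation, with constant `A`: at every
`v₀ ∈ B` there is a polynomial map of degree `< k` with `|b v - P v| ≤ A |v - v₀|^k` on `B`. -/
def TaylorClass {d : ℕ} (k : ℕ) (A : ℝ) (B : Set (Vec d)) (b : Vec d → Vec d) : Prop :=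
  ∀ v₀ ∈ B, ∃ P : Fin d → MvPolynomial (Fin d) ℝ, (∀ i, (P i).totalDegree < k) ∧
    ∀ v ∈ B, ‖b v - polyMap P v‖ ≤ A * ‖v - v₀‖ ^ k

/-- The admissible slopes `c` in dimension `d`: `d ≥ 2` and `c > 2d/(d+1)`, or `d ≥ 9`, `c > 1` and
the two inequalities hold with some weight `x ∈ [0, 1]`. -/
def Slope (d : ℕ) (c : ℝ) : Prop :=
  (2 ≤ d ∧ 2 * (d : ℝ) / (d + 1) < c) ∨ (9 ≤ d ∧ 1 < c ∧ ∃ x : ℝ, 0 ≤ x ∧ x ≤ 1 ∧
    0 < (d : ℝ) * (c ^ 3 - 4 * c + 2) + x * (c * (3 * c - 1 - c ^ 2)) ∧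
    4 * c ^ 2 + 5 * c - 4 + x * (3 * c ^ 2 + 1) < (d : ℝ) * (c ^ 2 - 1) + x * (3 * c - 1 - c ^ 2))

/-- The stages, with their exponents: arbitrary families of lines in the plane; families with at most
`M` lines through almost every point, given by a map that is Lipschitz on countably many pieces;
section-monotone families; families with the Taylor constants `A k` of order `k`, `k ≥ 1`; arbitrary
families of lines (`s d` is a slope such that all the larger ones are admissible); all the families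
that satisfy the maximal estimate with the exponents `p`, `l p` and the constants `c ε d * M`. -/
inductive Stage (l : ℝ) (A : ℕ → ℝ) (c : ℝ → ℕ → ℝ≥0) (s : ℕ → ℝ) :
    (d : ℕ) → ℝ → ℝ≥0 → Set (Vec d) → (Vec d → Vec d) → Prop
  | planar {B : Set (Vec 1)} {b : Vec 1 → Vec 1} : Stage l A c s 1 (1 + 1 / l) 1 B b
  | overlap {d M : ℕ} {B : Set (Vec d)} {b : Vec d → Vec d} (hM : 1 ≤ M)
      (hL : LipPieces B b) (hO : OverlapLE M B b) : Stage l A c s d (1 + d / l) M B b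
  | monotone {d : ℕ} {B : Set (Vec d)} {b : Vec d → Vec d} (hS : SectionMonotone B b) :
      Stage l A c s d (1 + d / l) 1 B b
  | taylor {d : ℕ} {B : Set (Vec d)} {b : Vec d → Vec d} (h : ∀ k, 1 ≤ k → TaylorClass k (A k) B b) :
      Stage l A c s d (1 + d / l) 1 B b
  | arbitrary {d : ℕ} {B : Set (Vec d)} {b : Vec d → Vec d} (h : ∀ c' : ℝ, s d < c' → Slope d c') :
      Stage l A c s d (1 + d / max l (s d)) 1 B b
  | maximal {d : ℕ} {p : ℝ} {M : ℝ≥0} {B : Set (Vec d)} {b : Vec d → Vec d} (hp : 1 ≤ p)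
      (hp' : p ≤ d + 1) (h : Maximal l p (fun ε => c ε d * M) B b) : Stage l A c s d p M B b

/-- The two components of the vector `v` in the orthogonal splitting `Φ`. -/
noncomputable def split {d d1 d2 : ℕ} (Φ : Vec d ≃ₗᵢ[ℝ] WithLp 2 (Vec d1 × Vec d2)) (v : Vec d) :
    Vec d1 × Vec d2 := WithLp.ofLp (Φ v)

/-- The family `b` on `B` is the skew product of the family `b1` on `B1` and of the families `b2 v` on
`B2 v`, `v ∈ B1`, for the orthogonal splitting `Φ` of `ℝ^d`; all the data are measurable. -/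
def IsSkew {d d1 d2 : ℕ} (Φ : Vec d ≃ₗᵢ[ℝ] WithLp 2 (Vec d1 × Vec d2)) (B : Set (Vec d))
    (B1 : Set (Vec d1)) (B2 : Vec d1 → Set (Vec d2)) (b : Vec d → Vec d) (b1 : Vec d1 → Vec d1)
    (b2 : Vec d1 → Vec d2 → Vec d2) : Prop :=
  MeasurableSet {z : Vec d1 × Vec d2 | z.1 ∈ B1 ∧ z.2 ∈ B2 z.1} ∧
    Measurable (Function.uncurry b2) ∧ MeasurableSet B ∧ B ⊆ closedBall 0 1 ∧ Measurable b ∧
    ∀ v ∈ B, (split Φ v).1 ∈ B1 ∧ (split Φ v).2 ∈ B2 (split Φ v).1 ∧
      split Φ (b v) = (b1 (split Φ v).1, b2 (split Φ v).1 (split Φ v).2)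

/-- Towers over a class `𝒮` of stages; `p` is the exponent, `M` is the multiplicity and `B` the set of
directions. -/
inductive Tower (𝒮 : (d : ℕ) → ℝ → ℝ≥0 → Set (Vec d) → (Vec d → Vec d) → Prop) :
    (d : ℕ) → ℝ → ℝ≥0 → Set (Vec d) → (Vec d → Vec d) → Prop
  | stage {d : ℕ} {p : ℝ} {M : ℝ≥0} {B : Set (Vec d)} {b : Vec d → Vec d} (hd : 1 ≤ d)
      (hB : MeasurableSet B) (hB1 : B ⊆ closedBall 0 1) (hb : Measurable b) (h : 𝒮 d p M B b) :
      Tower 𝒮 d p M B b
  | pieces {d : ℕ} {p : ℝ} {M : ℝ≥0} {b : Vec d → Vec d} (m : ℕ → ℝ≥0) (B : ℕ → Set (Vec d))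
      (h : ∀ j, Tower 𝒮 d p (m j) (B j) b) (hM : ∑' j, (m j : ℝ≥0∞) ≤ M) :
      Tower 𝒮 d p M (⋃ j, B j) b
  | skew {d d1 d2 : ℕ} {p1 p2 : ℝ} {M1 M2 : ℝ≥0} {B : Set (Vec d)} {B1 : Set (Vec d1)}
      {B2 : Vec d1 → Set (Vec d2)} {b : Vec d → Vec d} {b1 : Vec d1 → Vec d1}
      {b2 : Vec d1 → Vec d2 → Vec d2} (Φ : Vec d ≃ₗᵢ[ℝ] WithLp 2 (Vec d1 × Vec d2))
      (hd1 : 1 ≤ d1) (hd2 : 1 ≤ d2) (hM2 : 0 < M2)
      (h1 : Tower 𝒮 d1 p1 M1 B1 b1) (h2 : ∀ v ∈ B1, Tower 𝒮 d2 p2 M2 (B2 v) (b2 v))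
      (hs : IsSkew Φ B B1 B2 b b1 b2) : Tower 𝒮 d (p1 + p2 - 1) (M1 * M2) B b

open Pool.Agent.TH426.Kt (KTower Rough AllB LMb VanOff)
open Pool.Agent.N249.Tw (Cls)

theorem toK {𝒮 : (d : ℕ) → ℝ → ℝ≥0 → Set (Vec d) → (Vec d → Vec d) → Prop}
    {𝓑 : (d : ℕ) → ℝ → ℝ≥0 → Set (Vec d) → (Vec d → Vec d) → Prop}
    (h0 : ∀ {d : ℕ} {p : ℝ} {M : ℝ≥0} {B : Set (Vec d)} {b : Vec d → Vec d}, 1 ≤ d →
      MeasurableSet B → B ⊆ closedBall 0 1 → Measurable b → 𝒮 d p M B b → 𝓑 d p M B b)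
    {d : ℕ} {p : ℝ} {M : ℝ≥0} {B : Set (Vec d)} {b : Vec d → Vec d} (h : Tower 𝒮 d p M B b) :
    KTower 𝓑 d p M B b := by
  induction h with
  | stage hd hB hB1 hb h => exact KTower.base (h0 hd hB hB1 hb h)
  | pieces m B h hM ih => exact KTower.union m B ih hM
  | skew Φ hd1 hd2 hM2 h1 h2 hs ih1 ih2 =>
    obtain ⟨hB2, hb2, hB, hB1, hb, hbB⟩ := hs
    exact KTower.skew Φ hd1 hd2 hM2 ih1 ih2 hB2 hb2 hB hB1 hb hbB

theorem lineMax_congr {d : ℕ} {δ : ℝ} (b : Vec d → Vec d) (v : Vec d) {f g : Space d → ℝ}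
    (h : f =ᵐ[volume] g) : lineMax δ b f v = lineMax δ b g v := by
  unfold lineMax
  congr 1
  ext s
  congr 1
  apply lintegral_congr_ae
  filter_upwards [ae_restrict_of_ae h] with y hy
  rw [hy]

/-- **Kakeya maximal estimates for towers of families of lines with arbitrary stages.** -/
theorem result (d : ℕ) (hd : 1 ≤ d) (l : ℝ) (hl : 1 ≤ l) (A : ℕ → ℝ) (c : ℝ → ℕ → ℝ≥0)
    (s : ℕ → ℝ) : ∃ C : ℝ → ℝ≥0, ∀ (p : ℝ) (M : ℝ≥0) (B : Set (Vec d)) (b : Vec d → Vec d),
      Tower (Stage l A c s) d p M B b → Maximal l p (fun ε => C ε * M) B b := by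
  choose! C hC h using fun (ε : ℝ) (hε : 0 < ε) =>
    Pool.Agent.N249.Tw.tower_main hl A c s d hd hε
  refine ⟨fun ε => (C ε).toNNReal, ?_⟩
  intro p M B b hT ε hε δ hδ hδ1 f hf
  have hK : KTower (Cls l A c s) d p M B b := by
    refine toK ?_ hT
    intro d p M B b hd hB hB1 hb hS
    cases hS with
    | planar =>
      have e : (1 : ℝ) + 1 / l = 1 + ((1 : ℕ) : ℝ) / l := by norm_num
      rw [e]
      exact Cls.good le_rfl (AllB.rough (Rough.planar hB hB1 hb))
    | overlap hM hL hO =>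
      refine Cls.good hd (AllB.rough (Rough.overlap hd hM hB hB1 hb hL ?_))
      filter_upwards [hO] with t ht _ using ht
    | monotone hS =>
      refine Cls.good hd (AllB.rough (Rough.monotone hd hB hB1 hb ?_))
      filter_upwards [hS] with t ht _ using ht
    | taylor h => exact Cls.good hd (AllB.smooth hd hB hB1 hb h)
    | arbitrary h =>
      refine Cls.arbitrary hd hB hB1 hb ?_
      intro c' hc'
      rcases h c' hc' with ⟨h2, h3⟩ | ⟨h9, h1, x, hx0, hx1, hg, hk⟩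
      · exact Pool.Agent.N249.Tw.tubeQ_wolff h2 h3
      · exact Pool.Agent.N249.Tw.tubeQ_mix h9 ⟨hx0, hx1, h1, hg, hk⟩
    | maximal hp hp' h =>
      refine Cls.maximal hd hB hB1 hb hp hp' ?_
      intro ε hε δ hδ hδ1 f hf _
      exact h ε hε δ hδ hδ1 f hf.aemeasurable
  have h1 : ∫⁻ v in B, lineMax δ b (hf.mk f) v ^ (l * p)
      ≤ ENNReal.ofReal (C ε * M * δ ^ (-(l * ((d : ℝ) + 1 - p) + ε))) *
        (∫⁻ y, ‖hf.mk f y‖ₑ ^ p) ^ l :=
    h ε hε p M B b hK δ hδ hδ1 (hf.mk f) hf.measurable_mk (fun y t ht => absurd (mem_univ t) ht)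
  have e1 : ∀ v, lineMax δ b f v = lineMax δ b (hf.mk f) v :=
    fun v => lineMax_congr b v hf.ae_eq_mk
  have e2 : ∫⁻ y, ‖f y‖ₑ ^ p = ∫⁻ y, ‖hf.mk f y‖ₑ ^ p := by
    apply lintegral_congr_ae
    filter_upwards [hf.ae_eq_mk] with y hy
    rw [hy]
  simp only [e1]
  rw [e2]
  refine h1.trans (le_of_eq ?_)
  rw [ENNReal.ofReal_mul (by have := (hC ε hε).le; positivity),
    ENNReal.ofReal_mul (hC ε hε).le, ENNReal.ofReal_coe_nnreal]
  rfl

end Pool.Agent.N249.Shelf.ArbitraryStageTowers
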