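import Pool.Agent.N733.TG.K
import Pool.Agent.Results.MP_464c42_nt.OrbifoldLines

/-!
# C-pairs of general type on the line: no integral points with a height near the values of a multiplicative function

Let `f` be a positive multiplicative function of at most polynomial growth such that `f p ≤ M p` for the large primes `p`,
with different values at different large primes; for example Euler's function or the sum of the divisors. Let `K` be a number
field of degree `e`, `S` a finite set of primes of `K` and `Δ = (1 - 1 / m_0) (0) + (1 - 1 / m_1) (1) + (1 - 1 / m_2) (∞)` a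
C-pair of general type on the projective line, `σ = 1 / m_0 + 1 / m_1 + 1 / m_2 < 1`, `s = min (4 σ / 7) (20 / 37)`. Let
`α > 0`, `d ≥ 1` and `d s + κ < 1`. For all `k ≤ N` but `N / (log N)^U` NO `S`-integral point `x` over `K` of the C-pair has a
relative height `H_K(x) = exp (e h(x))` with `|H_K(x) - α f(k)^d| ≤ f(k)^κ`. More generally `G (f k)` takes the place of
`α f(k)^d`, where `G` is any function with steps bounded below by a positive constant and growth at most `v^d`. The values of
`f` are in general taken with very large multiplicities, and so this does not follow from the number of integral points.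

Proof. Write `k = a w` where `a` is composed of the primes `≤ z = N^(1 / J)`, `J` about `log log N`. For most `k` one has
`a ≤ N^η`, and `w` is a product of at most `J` different primes. So `f(w)` is taken at most `(1 + τ)^J` times, `τ` its number of
divisors, which is at most `N^o(1)` on average, even in mean square: and the heights to be avoided form only `N^(1 - δ)`
integers. Their number is bounded by the starting theorem `OrbifoldLines` of this problem.
-/

set_option autoImplicit false

namespace Pool.Agent.Results.MP_464c42_nt.MultiplicativeValues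

open NumberField IsDedekindDomain
open Pool.Agent.N733.TG (LM Expanding lm_totient lm_sigma keep_windows expanding_pow)
open Pool.Agent.Results.MP_464c42_nt.OrbifoldLines (height recip IsIntegral)

lemma count (K : Type) [Field K] [NumberField K] (S : Finset (HeightOneSpectrum (𝓞 K))) (m : Fin 3 → ℕ∞)
    (hm : ∀ i, 1 ≤ m i) (hσ : ∑ i, recip (m i) < 1) (ε : ℝ) (hε : 0 < ε) :
    ∃ C : ℝ, ∀ X : ℝ, 1 ≤ X →
      {x | x ∈ {x : K | IsIntegral S m x} ∧ Real.exp ((Module.finrank ℚ K : ℝ) * height x) ≤ X}.Finite ∧
      ({x | x ∈ {x : K | IsIntegral S m x} ∧ Real.exp ((Module.finrank ℚ K : ℝ) * height x) ≤ X}.ncard : ℝ) ≤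
        C * X ^ (min (4 * (∑ i, recip (m i)) / 7) (20 / 37) + ε) := by
  have hd : (0 : ℝ) < (Module.finrank ℚ K : ℝ) := by exact_mod_cast Module.finrank_pos
  set d : ℝ := (Module.finrank ℚ K : ℝ) with hd'
  obtain ⟨C, hC⟩ := Pool.Agent.Results.MP_464c42_nt.OrbifoldLines.result K S m hm hσ (d * ε) (by positivity)
  refine ⟨C, fun X hX => ?_⟩
  have hX0 : 0 < X := by linarith
  have hB : 1 ≤ X ^ (1 / d) := Real.one_le_rpow hX (by positivity)
  obtain ⟨hfin, hcard⟩ := hC (X ^ (1 / d)) hB
  have hset : {x | x ∈ {x : K | IsIntegral S m x} ∧ Real.exp (d * height x) ≤ X} =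
      Pool.Agent.Results.MP_464c42_nt.OrbifoldLines.points K S m (X ^ (1 / d)) := by
    ext x
    have h1 : Real.exp (d * height x) ≤ X ↔ Real.exp (height x) ≤ X ^ (1 / d) := by
      rw [← Real.le_log_iff_exp_le hX0, ← Real.le_log_iff_exp_le (Real.rpow_pos_of_pos hX0 _), Real.log_rpow hX0]
      rw [one_div, inv_mul_eq_div, le_div_iff₀ hd, mul_comm]
    constructor
    · rintro ⟨h2, h5⟩
      exact ⟨h2, h1.1 h5⟩
    · rintro ⟨h2, h4⟩
      exact ⟨h2, h1.2 h4⟩
  rw [hset]
  refine ⟨hfin, hcard.trans (le_of_eq ?_)⟩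
  rw [← Real.rpow_mul hX0.le]
  congr 2
  rw [← hd']
  field_simp

/-- **No integral points near the values of multiplicative functions.** Let `f` be multiplicative and positive, of at most
polynomial growth, with `f p ≤ M p` at the large primes, and injective there. Let `G` have steps `≥ a > 0` and growth at most
`v^d`. Let `K` be a number field, `S` a finite set of primes of `K` and `m_0, m_1, m_2 ∈ {1, 2, …, ∞}` with
`σ = 1 / m_0 + 1 / m_1 + 1 / m_2 < 1`. Let `κ ≥ 0` and `d min (4 σ / 7) (20 / 37) + κ < 1`. For every `U` and all large `N`,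
for all `k ≤ N` but `N / (log N)^U`, NO `S`-integral point `x ∈ K` of the C-pair satisfies `|H_K(x) - G (f k)| ≤ f(k)^κ`, where
`H_K(x) = exp ([K : ℚ] h(x))`. Euler's function and the sum of the divisors are examples of such functions `f`, and `α v^d` with
`α > 0`, `d ≥ 1` is an example of `G`. -/
theorem result :
    (∀ f : ℕ → ℕ, LM f → ∀ (G : ℕ → ℝ) (d : ℝ), Expanding G d →
      ∀ (K : Type) [Field K] [NumberField K] (S : Finset (HeightOneSpectrum (𝓞 K))) (m : Fin 3 → ℕ∞) (κ : ℝ),
        (∀ i, 1 ≤ m i) → ∑ i, recip (m i) < 1 → 0 ≤ κ →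
        d * min (4 * (∑ i, recip (m i)) / 7) (20 / 37) + κ < 1 →
      ∀ U : ℕ, ∃ N₀ : ℕ, ∀ N : ℕ, N₀ ≤ N →
      ({k : ℕ | 1 ≤ k ∧ k ≤ N ∧ ∃ x : K, IsIntegral S m x ∧
          |Real.exp ((Module.finrank ℚ K : ℝ) * height x) - G (f k)| ≤ (f k : ℝ) ^ κ}.ncard : ℝ) ≤
        N / Real.log N ^ U) ∧
    (LM Nat.totient ∧ LM (fun m => ∑ d ∈ m.divisors, d)) ∧
    ∀ α d : ℝ, 0 < α → 1 ≤ d → Expanding (fun v => α * (v : ℝ) ^ d) d := by
  refine ⟨fun f hf G d hG K _ _ S m κ hm hσ hκ h1 U => ?_, ⟨lm_totient, lm_sigma⟩, fun α d hα hd => expanding_pow hα hd⟩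
  have hσ0 : 0 ≤ ∑ i, recip (m i) := by
    apply Finset.sum_nonneg
    intro i _
    unfold recip
    positivity
  obtain ⟨N₀, hN₀⟩ := keep_windows {x : K | IsIntegral S m x}
    (fun x => Real.exp ((Module.finrank ℚ K : ℝ) * height x)) hf hG
    (s := min (4 * (∑ i, recip (m i)) / 7) (20 / 37)) (κ := κ) (le_min (by positivity) (by norm_num)) hκ h1
    (count K S m hm hσ) U
  exact ⟨N₀, fun N hN => hN₀ N hN⟩

end Pool.Agent.Results.MP_464c42_nt.MultiplicativeValues
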